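import Pool.Agent.H24.TK.Press
import Pool.Agent.H24.TK.Loc2

/-!
# The dimension spectrum of the Takagi function is larger than the spectrum of the local level sets

For `0 < α < 1/2` the ordinates `y` whose level set contains a local level set (Lagarias and Maddock) of dimension at least `α` form
a set of dimension at most `h(α) = (1 - α) log₂ (2 (1 - α)) - (1/2 - α) log₂ (1 - 2 α)`, and `h(α) < f_τ(α)`.  So, in the sense of
dimension, most level sets of dimension at least `α` contain no local level set of dimension at least `α`.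
(The Takagi function is constant on local level sets: `Pool.Agent.H24.TK.localLevelSet_subset`.)
-/

set_option autoImplicit false

open H8TAK Pool.Agent.H24.TK

namespace Pool.Agent.Results.MP_1e01cb_an.BeyondLocal

/-- For `0 < α < 1/2`: the ordinates over which there is a local level set of dimension at least `α` form a set of dimension at
most `h(α)`, and `h(α) < f_τ(α)`. -/
theorem result (α : ℝ) (h0 : 0 < α) (h1 : α < 1 / 2) :
    dimH {y : ℝ | ∃ x ∈ levelSet y, ENNReal.ofReal α ≤ dimH (localLevelSet x)} ≤
      ENNReal.ofReal ((1 - α) * Real.logb 2 (2 * (1 - α)) - (1 / 2 - α) * Real.logb 2 (1 - 2 * α)) ∧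
    ENNReal.ofReal ((1 - α) * Real.logb 2 (2 * (1 - α)) - (1 / 2 - α) * Real.logb 2 (1 - 2 * α)) < fTau α := by
  constructor
  · refine le_trans (dimH_mono ?_) (dimH_localOrdinates_le h0 h1)
    rintro y ⟨x, hx, hdim⟩
    exact ⟨x, hx.1, hx.2, hdim⟩
  · have hGG : hh α < GG α := hh_lt_GG h0 h1
    have hpos : 0 < GG α := by
      have h5 := ff_strictAnti (a := α) (b := 1 / 2) ⟨h0.le, h1.le⟩ ⟨by norm_num, le_rfl⟩ h1
      rw [ff_half, ff_eq ⟨h0.le, h1.le⟩] at h5
      exact h5
    rw [spectrum_eq h0.le h1.le]
    exact (ENNReal.ofReal_lt_ofReal_iff hpos).2 hGG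

end Pool.Agent.Results.MP_1e01cb_an.BeyondLocal
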