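import Pool.Agent.H8.TAK.Duality
import Pool.Agent.H8.TAK.RateE

/-!
# The dimension spectrum of the Takagi function

The dimension spectrum `f_τ` of the level sets of the Takagi function is given on `[0, 1/2]` by a
variational formula in terms of the multiplicities `mult m y`, the number of `k < 4^m` with exactly
`m` binary digits equal to one and `τ(k / 4^m) = y`.
-/

namespace Pool.Agent.Results.MP_1e01cb_an.DimensionSpectrum

open H8TAK

/-- For every `α ∈ [0, 1/2]`,
`f_τ(α) = sup_m log₂ N_m(α) / (2m) = inf_{q ≥ 1} (P(q) - q α)`, where `N_m(α)` is the number of `y`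
with `mult m y ≥ 4^(α m)` and `P(q) = sup_m log₂ (∑_y mult(m,y)^q) / (2m)`; for `α < 1/2` the
infimum is attained at some `q ≤ 2 (1 - α) / (1 - 2 α)`; and `P(q)` is approximated by the finite
sums with an explicit error. -/
theorem result :
    (∀ α : ℝ, 0 ≤ α → α ≤ 1 / 2 →
      fTau α = (⨆ (m : ℕ) (_ : 1 ≤ m),
        ENNReal.ofReal (Real.logb 2 (levelCount m α) / (2 * m))) ∧
      fTau α = (⨅ (q : ℝ) (_ : 1 ≤ q), ENNReal.ofReal (pressure q - q * α)) ∧
      ∀ q : ℝ, 1 ≤ q → 0 ≤ pressure q - q * α) ∧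
    (∀ α : ℝ, 0 ≤ α → α < 1 / 2 →
      ∃ q : ℝ, 1 ≤ q ∧ q ≤ 2 * (1 - α) / (1 - 2 * α) ∧
        fTau α = ENNReal.ofReal (pressure q - q * α)) ∧
    (∀ q : ℝ, 1 ≤ q → ∀ m : ℕ, 1 ≤ m →
      Real.logb 2 (momentSum m q) / (2 * m) ≤ pressure q ∧
        pressure q ≤ Real.logb 2 (momentSum m q) / (2 * m) +
          (4 * q + 1) * Real.logb 2 (2 * m + 1) / m) := by
  refine ⟨fun α h0 h1 => ⟨spectrum_formula h0 h1, spectrum_eq_iInf h0 h1,
      fun q hq => le_trans (GG_nonneg h1) (GG_le_pressure h0 h1 hq)⟩,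
    fun α h0 h1 => exists_min h0 h1, fun q hq m hm => ?_⟩
  rw [pressure_eq (by linarith), momentSum_eq m (by linarith)]
  refine ⟨?_, PP_rate hq hm⟩
  obtain ⟨k, rfl⟩ := Nat.exists_eq_add_of_le' hm
  exact ee_le_PP (by linarith) k

end Pool.Agent.Results.MP_1e01cb_an.DimensionSpectrum
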