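import Pool.Agent.H8.TAK.Leg
import Pool.Agent.H8.TAK.Right

/-!
# Explicit bounds for the dimension spectrum of the Takagi function

For `0 < α ≤ 1/2` the spectrum lies between
`h(α) = (1 - α) log₂ (2 (1 - α)) - (1/2 - α) log₂ (1 - 2 α)` and `1 - α`, the upper bound being
strict, and `f_τ(1/2 - ε) ≤ 11 ε log₂ (1/ε)`.
-/

namespace Pool.Agent.Results.MP_1e01cb_an.ExplicitBounds

open H8TAK

/-- Bounds which give the behaviour of the spectrum at both end points: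
`h(α) = 1 - α - O(α²)` as `α → 0` and `h(1/2 - ε) ≥ ε log₂ (1 / (2 ε))`. -/
theorem result :
    (∀ α : ℝ, 0 < α → α ≤ 1 / 2 →
      (1 - α) * Real.logb 2 (2 * (1 - α)) - (1 / 2 - α) * Real.logb 2 (1 - 2 * α) ≤
        (fTau α).toReal ∧ (fTau α).toReal < 1 - α) ∧
    (∀ ε : ℝ, 0 < ε → ε ≤ 1 / 2 →
      ε * Real.logb 2 (1 / (2 * ε)) ≤ (fTau (1 / 2 - ε)).toReal ∧
        (fTau (1 / 2 - ε)).toReal ≤ 11 * ε * Real.logb 2 (1 / ε)) := by
  have key : ∀ α : ℝ, 0 ≤ α → α ≤ 1 / 2 →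
      (1 - α) * Real.logb 2 (2 * (1 - α)) - (1 / 2 - α) * Real.logb 2 (1 - 2 * α) ≤
        (fTau α).toReal := by
    intro α h0 h1
    rw [spectrum_toReal h0 h1]
    exact hh_le_GG h0 h1
  refine ⟨fun α h0 h1 => ⟨key α h0.le h1, ?_⟩, fun ε h0 h1 => ⟨?_, ?_⟩⟩
  · rw [spectrum_toReal h0.le h1]
    exact GG_lt h0 h1
  · refine le_trans ?_ (key (1 / 2 - ε) (by linarith) (by linarith))
    have e1 : 1 / 2 - (1 / 2 - ε) = ε := by ring
    have e2 : 1 - 2 * (1 / 2 - ε) = 2 * ε := by ring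
    have e3 : 2 * (1 - (1 / 2 - ε)) = 1 + 2 * ε := by ring
    rw [e1, e2, e3]
    have h2 : 0 ≤ Real.logb 2 (1 + 2 * ε) := Real.logb_nonneg (by norm_num) (by linarith)
    have h3 : Real.logb 2 (1 / (2 * ε)) = - Real.logb 2 (2 * ε) := by
      rw [one_div, Real.logb_inv]
    have h4 : 0 ≤ (1 - (1 / 2 - ε)) * Real.logb 2 (1 + 2 * ε) :=
      mul_nonneg (by linarith) h2
    rw [h3]
    linarith
  · rw [spectrum_toReal (by linarith) (by linarith)]
    exact GG_right h0 h1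

end Pool.Agent.Results.MP_1e01cb_an.ExplicitBounds
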