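import Pool.Agent.H8.TAK.Final

/-!
# Qualitative shape of the dimension spectrum of the Takagi function

On `[0, 1/2]` the spectrum is a continuous, strictly decreasing, concave function which takes the
values `1` at `0` and `0` at `1/2`.
-/

namespace Pool.Agent.Results.MP_1e01cb_an.SpectrumShape

open H8TAK

/-- The dimension spectrum `f_τ` of the level sets of the Takagi function is continuous, concave and
strictly decreasing on `[0, 1/2]`, with `f_τ(0) = 1` and `f_τ(1/2) = 0`. -/
theorem result :
    fTau 0 = 1 ∧ fTau (1 / 2) = 0 ∧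
    (∀ α : ℝ, 0 ≤ α → fTau α ≤ 1) ∧
    ContinuousOn (fun α : ℝ => (fTau α).toReal) (Set.Icc 0 (1 / 2)) ∧
    StrictAntiOn (fun α : ℝ => (fTau α).toReal) (Set.Icc 0 (1 / 2)) ∧
    ConcaveOn ℝ (Set.Icc 0 (1 / 2)) (fun α : ℝ => (fTau α).toReal) := by
  refine ⟨spectrum_zero, ?_, ?_, ff_continuous, ff_strictAnti, ff_concave⟩
  · rw [spectrum_eq (by norm_num) le_rfl, GG_half, ENNReal.ofReal_zero]
  · intro α _
    unfold fTau
    refine (dimH_mono (Set.subset_univ _)).trans ?_
    rw [Real.dimH_univ]

end Pool.Agent.Results.MP_1e01cb_an.SpectrumShape
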